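import Mathlib
import Pool.Agent.H22.Saw

set_option autoImplicit false
open MeasureTheory ProbabilityTheory

namespace Pool.Agent.Results.MP_12f94a_pr.Counter
noncomputable section
open Classical

/-- A state: the finite occupied set, the occupation times, the types (`true` is `FPP_λ`). -/
structure St (V : Type) where
  A : Finset V
  τ : V → ℝ
  ty : V → Bool

/-- The time at which the type occupying `e.1` attempts to occupy `e.2`; `(t e).1` and `(t e).2`
are the clocks of `FPP_1` and `FPP_λ` on the edge. -/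
def att {V : Type} (t : Sym2 V → ℝ × ℝ) (s : St V) (e : V × V) : ℝ :=
  s.τ e.1 + if s.ty e.1 then (t s(e.1, e.2)).2 else (t s(e.1, e.2)).1

/-- `e` goes from an occupied vertex to an unoccupied neighbour. -/
def cand {V : Type} (G : SimpleGraph V) (s : St V) (e : V × V) : Prop :=
  e.1 ∈ s.A ∧ e.2 ∉ s.A ∧ G.Adj e.1 e.2

/-- The next event: the earliest attempt on an unoccupied vertex; that vertex becomes `FPP_λ` if
it carries a seed and takes the type of the attacker otherwise. -/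
def step {V : Type} [Nonempty V] (G : SimpleGraph V) (seed : V → Bool) (t : Sym2 V → ℝ × ℝ)
    (s : St V) : St V :=
  let e := epsilon fun e => cand G s e ∧ ∀ e', cand G s e' → att t s e ≤ att t s e'
  ⟨insert e.2 s.A, Function.update s.τ e.2 (att t s e),
    Function.update s.ty e.2 (seed e.2 || s.ty e.1)⟩

/-- The state after `n` events, started from `FPP_1` at `o` at time `0`. -/
def run {V : Type} [Nonempty V] (G : SimpleGraph V) (o : V) (seed : V → Bool)
    (t : Sym2 V → ℝ × ℝ) (n : ℕ) : St V :=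
  (step G seed t)^[n] ⟨{o}, fun _ => 0, fun _ => false⟩

/-- Independent seeds of density `μ` and independent exponential clocks of rates `1` and `l`. -/
def law (V : Type) (l : ℝ) (μ : unitInterval) : Measure ((V → Bool) × (Sym2 V → ℝ × ℝ)) :=
  (Measure.infinitePi fun _ => bernoulliMeasure true false μ).prod
    (Measure.infinitePi fun _ => (expMeasure 1).prod (expMeasure l))

section gen
variable {V : Type} [Nonempty V] [Infinite V] (G : SimpleGraph V) (o : V) (seed : V → Bool)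
  (t : Sym2 V → ℝ × ℝ)

lemma run_succ (n : ℕ) : run G o seed t (n + 1) = step G seed t (run G o seed t n) :=
  Function.iterate_succ_apply' _ _ _

lemma bdry (hc : G.Connected) (A : Set V) {x y : V} (hx : x ∈ A) (hy : y ∉ A) :
    ∃ u ∈ A, ∃ v, v ∉ A ∧ G.Adj u v := by
  obtain ⟨p⟩ := hc x y
  induction p with
  | nil => exact absurd hx hy
  | @cons a b c h p ih =>
    by_cases hb : b ∈ A
    · exact ih hb hy
    · exact ⟨a, hx, b, hb, h⟩

lemma step_spec (hc : G.Connected) (hf : ∀ v, (G.neighborSet v).Finite) (s : St V)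
    (hs : o ∈ s.A) : ∃ e, cand G s e ∧ (∀ e', cand G s e' → att t s e ≤ att t s e') ∧
      step G seed t s = ⟨insert e.2 s.A, Function.update s.τ e.2 (att t s e),
        Function.update s.ty e.2 (seed e.2 || s.ty e.1)⟩ := by
  have h1 : {e | cand G s e}.Finite := by
    refine (s.A.finite_toSet.prod (s.A.finite_toSet.biUnion fun v _ => hf v)).subset ?_
    rintro e ⟨h1, -, h2⟩
    exact ⟨h1, Set.mem_biUnion h1 h2⟩
  obtain ⟨y, hy⟩ := Infinite.exists_notMem_finset s.A
  obtain ⟨u, hu, v, hv, h⟩ := bdry G hc (s.A : Set V) hs hy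
  obtain ⟨e, he, he'⟩ := Set.exists_min_image _ (att t s) h1 ⟨(u, v), hu, hv, h⟩
  have := epsilon_spec (p := fun e => cand G s e ∧ ∀ e', cand G s e' → att t s e ≤ att t s e')
    ⟨e, he, he'⟩
  exact ⟨_, this.1, this.2, rfl⟩

lemma o_mem (n : ℕ) : o ∈ (run G o seed t n).A := by
  induction n with
  | zero => simp [run]
  | succ n ih => rw [run_succ]; exact Finset.mem_insert_of_mem ih

def Z (H : SimpleGraph V) : ℕ → Set V
  | 0 => ∅
  | j + 1 => ⋃ w ∈ insert o (⋃ u ∈ Z H j, G.neighborSet u), {y | H.Reachable w y}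

lemma Z_fin (hf : ∀ v, (G.neighborSet v).Finite) (H : SimpleGraph V)
    (hH : ∀ x, {y | H.Reachable x y}.Finite) (j : ℕ) : (Z G o H j).Finite := by
  induction j with
  | zero => exact Set.finite_empty
  | succ j ih => exact ((ih.biUnion fun u _ => hf u).insert o).biUnion fun w _ => hH w

lemma inv (hc : G.Connected) (hf : ∀ v, (G.neighborSet v).Finite) (ε : ℝ)
    (h0 : ∀ e, 0 ≤ (t e).1 ∧ 0 ≤ (t e).2) (n : ℕ) :
    (run G o seed t n).A.card = n + 1 ∧ ∀ v ∈ (run G o seed t n).A, 0 ≤ (run G o seed t n).τ v ∧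
      ∀ j : ℕ, (run G o seed t n).τ v < j * ε →
        v ∈ Z G o (Pool.Agent.H22.Saw.Sm G {x | x.1 < ε ∨ x.2 < ε} t) j := by
  induction n with
  | zero =>
    refine ⟨by simp [run], fun v hv => ⟨by simp [run], fun j hj => ?_⟩⟩
    obtain rfl : v = o := by simpa [run] using hv
    cases j with
    | zero => simp [run] at hj
    | succ j => exact Set.mem_biUnion (Set.mem_insert _ _) SimpleGraph.Reachable.rfl
  | succ n ih =>
    obtain ⟨e, ⟨h1, h2, h3⟩, -, h4⟩ := step_spec G o seed t hc hf _ (o_mem G o seed t n)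
    rw [run_succ, h4]
    refine ⟨by simp [h2, ih.1], fun v hv => ?_⟩
    rcases Finset.mem_insert.1 hv with rfl | hv
    · simp only [Function.update_self]
      obtain ⟨h5, h6⟩ := ih.2 _ h1
      obtain ⟨w, hw, hw0, hw1⟩ : ∃ w, att t (run G o seed t n) e = (run G o seed t n).τ e.1 + w ∧
          0 ≤ w ∧ (w < ε → (t s(e.1, e.2)).1 < ε ∨ (t s(e.1, e.2)).2 < ε) := by
        unfold att
        split_ifs
        · exact ⟨_, rfl, (h0 _).2, Or.inr⟩
        · exact ⟨_, rfl, (h0 _).1, Or.inl⟩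
      rw [hw]
      refine ⟨by linarith, fun j hj => ?_⟩
      cases j with
      | zero => simp at hj; linarith
      | succ j =>
        by_cases h7 : w < ε
        · obtain ⟨z, hz, hz'⟩ := Set.mem_iUnion₂.1 (h6 (j + 1) (by linarith))
          exact Set.mem_biUnion hz (hz'.trans (SimpleGraph.Adj.reachable ⟨h3, hw1 h7⟩))
        · refine Set.mem_biUnion (Set.mem_insert_of_mem _ (Set.mem_biUnion (h6 j ?_) h3))
            SimpleGraph.Reachable.rfl
          push_cast at hj
          linarith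
    · have : v ≠ e.2 := by rintro rfl; exact h2 hv
      simp only [Function.update_of_ne this]
      exact ih.2 v hv

lemma all_occ (hc : G.Connected) (hf : ∀ v, (G.neighborSet v).Finite) (ε : ℝ) (hε : 0 < ε)
    (h0 : ∀ e, 0 ≤ (t e).1 ∧ 0 ≤ (t e).2)
    (hH : ∀ x, {y | (Pool.Agent.H22.Saw.Sm G {x | x.1 < ε ∨ x.2 < ε} t).Reachable x y}.Finite)
    (y : V) : ∃ n, y ∈ (run G o seed t n).A := by
  by_contra hy
  obtain ⟨u, ⟨m, hu⟩, v, hv, h⟩ := bdry G hc {y | ∃ n, y ∈ (run G o seed t n).A}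
    ⟨0, o_mem G o seed t 0⟩ hy
  have key : ∀ n, m ≤ n → u ∈ (run G o seed t n).A ∧
      att t (run G o seed t n) (u, v) = att t (run G o seed t m) (u, v) ∧
      ∀ x ∈ (run G o seed t n).A, x ∈ (run G o seed t m).A ∨
        (run G o seed t n).τ x ≤ att t (run G o seed t m) (u, v) := by
    intro n hn
    induction n, hn using Nat.le_induction with
    | base => exact ⟨hu, rfl, fun x hx => Or.inl hx⟩
    | succ n _ ih =>
      obtain ⟨e, ⟨h1, h2, h3⟩, h5, h4⟩ := step_spec G o seed t hc hf _ (o_mem G o seed t n)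
      rw [run_succ, h4]
      have h6 : u ≠ e.2 := by rintro rfl; exact h2 ih.1
      refine ⟨Finset.mem_insert_of_mem ih.1, ?_, fun x hx => ?_⟩
      · rw [← ih.2.1]
        simp only [att, Function.update_of_ne h6]
      · rcases Finset.mem_insert.1 hx with rfl | hx
        · right
          simp only [Function.update_self]
          rw [← ih.2.1]
          exact h5 _ ⟨ih.1, fun h' => hv ⟨n, h'⟩, h⟩
        · have : x ≠ e.2 := by rintro rfl; exact h2 hx
          simp only [Function.update_of_ne this]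
          exact ih.2.2 x hx
  obtain ⟨j, hj⟩ := exists_nat_gt (att t (run G o seed t m) (u, v) / ε)
  rw [div_lt_iff₀ hε] at hj
  have hF := Z_fin G o hf _ hH j
  set N := ((run G o seed t m).A ∪ hF.toFinset).card
  have h1 : (run G o seed t (m + N)).A ⊆ (run G o seed t m).A ∪ hF.toFinset := by
    intro x hx
    rcases (key (m + N) (by omega)).2.2 x hx with h2 | h2
    · exact Finset.mem_union_left _ h2
    · exact Finset.mem_union_right _ (hF.mem_toFinset.2
        (((inv G o seed t hc hf ε h0 _).2 x hx).2 j (by linarith)))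
  have h2 := Finset.card_le_card h1
  rw [(inv G o seed t hc hf ε h0 _).1] at h2
  omega

lemma ty_inv (hc : G.Connected) (hf : ∀ v, (G.neighborSet v).Finite) (Q : Set V) (ho : o ∉ Q)
    (hQ : ∀ u v, G.Adj u v → v ∈ Q → u ∈ Q ∨ seed v = true) (n : ℕ) :
    ∀ v ∈ (run G o seed t n).A, v ∈ Q → (run G o seed t n).ty v = true := by
  induction n with
  | zero =>
    intro v hv hv'
    obtain rfl : v = o := by simpa [run] using hv
    exact absurd hv' ho
  | succ n ih =>
    obtain ⟨e, ⟨h1, h2, h3⟩, -, h4⟩ := step_spec G o seed t hc hf _ (o_mem G o seed t n)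
    rw [run_succ, h4]
    intro v hv hv'
    rcases Finset.mem_insert.1 hv with rfl | hv
    · simp only [Function.update_self]
      rcases hQ _ _ h3 hv' with h | h
      · simp [ih _ h1 h]
      · simp [h]
    · have : v ≠ e.2 := by rintro rfl; exact h2 hv
      simp only [Function.update_of_ne this]
      exact ih v hv hv'

end gen

abbrev W := ℕ × ℕ × ℕ

def rel (a b : W) : Prop :=
  b = (a.1, a.2.1 + 1, a.2.2) ∨ b = (a.1, a.2.1, a.2.2 + 1) ∨ (a.2 = (0, 0) ∧ b = (a.1 + 1, 0, 0))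

def Gr : SimpleGraph W := SimpleGraph.fromRel rel

def nb (a : W) (d : Fin 4) : W :=
  ![(a.1, a.2.1 + 1, a.2.2), (a.1, a.2.1, a.2.2 + 1),
    if a.2 = (0, 0) then (a.1 + 1, 0, 0) else (a.1, a.2.1 - 1, a.2.2),
    if a.2 = (0, 0) then (a.1 - 1, 0, 0) else (a.1, a.2.1, a.2.2 - 1)] d

lemma adj_nb (x y : W) (h : Gr.Adj x y) : ∃ d, y = nb x d := by
  obtain ⟨a, b, c⟩ := x
  obtain ⟨a', b', c'⟩ := y
  rw [Gr, SimpleGraph.fromRel_adj] at h
  rcases h.2 with (h | h | ⟨h1, h⟩) | (h | h | ⟨h1, h⟩)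
  · exact ⟨0, h⟩
  · exact ⟨1, h⟩
  · exact ⟨2, by simp only at h1; simp [nb, h1, h]⟩
  · simp only [Prod.mk.injEq] at h
    obtain ⟨rfl, rfl, rfl⟩ := h
    exact ⟨2, by simp [nb]⟩
  · simp only [Prod.mk.injEq] at h
    obtain ⟨rfl, rfl, rfl⟩ := h
    exact ⟨3, by simp [nb]⟩
  · simp only [Prod.mk.injEq] at h h1
    obtain ⟨rfl, rfl, rfl⟩ := h
    obtain ⟨rfl, rfl⟩ := h1
    exact ⟨3, by simp [nb]⟩

lemma a1 (k x y : ℕ) : Gr.Adj (k, x, y) (k, x + 1, y) := by
  rw [Gr, SimpleGraph.fromRel_adj]; exact ⟨by simp, Or.inl (Or.inl rfl)⟩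

lemma a2 (k x y : ℕ) : Gr.Adj (k, x, y) (k, x, y + 1) := by
  rw [Gr, SimpleGraph.fromRel_adj]; exact ⟨by simp, Or.inl (Or.inr (Or.inl rfl))⟩

lemma a3 (k : ℕ) : Gr.Adj (k, 0, 0) (k + 1, 0, 0) := by
  rw [Gr, SimpleGraph.fromRel_adj]; exact ⟨by simp, Or.inl (Or.inr (Or.inr ⟨rfl, rfl⟩))⟩

lemma conn : Gr.Connected := by
  have h : ∀ k x y, Gr.Reachable (0, 0, 0) (k, x, y) := by
    intro k x y
    induction y with
    | succ y ih => exact ih.trans (a2 k x y).reachable
    | zero =>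
      induction x with
      | succ x ih => exact ih.trans (a1 k x 0).reachable
      | zero =>
        induction k with
        | zero => rfl
        | succ k ih => exact ih.trans (a3 k).reachable
  exact ⟨fun a b => (h a.1 a.2.1 a.2.2).symm.trans (h b.1 b.2.1 b.2.2)⟩

lemma deg (v : W) : (Gr.neighborSet v).encard ≤ 4 := by
  have : Gr.neighborSet v ⊆ nb v '' Set.univ := fun w hw =>
    let ⟨d, hd⟩ := adj_nb v w hw; ⟨d, trivial, hd.symm⟩
  refine (Set.encard_le_encard this).trans ((Set.encard_image_le _ _).trans ?_)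
  simp

lemma lip {x y : W} (p : Gr.Walk x y) : y.1 + y.2.1 + y.2.2 ≤ x.1 + x.2.1 + x.2.2 + p.length := by
  induction p with
  | nil => simp
  | @cons a b c h p ih =>
    have : b.1 + b.2.1 + b.2.2 ≤ a.1 + a.2.1 + a.2.2 + 1 := by
      obtain ⟨d, rfl⟩ := adj_nb _ _ h
      fin_cases d <;> simp only [nb] <;> simp <;> (try split_ifs) <;> (try simp) <;> omega
    rw [SimpleGraph.Walk.length_cons]
    omega

lemma growth (n : ℕ) (hn : 1 ≤ n) :
    {v | Gr.dist (0, 0, 0) v ≤ n}.encard ≤ ((8 * n ^ 3 : ℕ) : ℕ∞) := by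
  have : {v | Gr.dist (0, 0, 0) v ≤ n} ⊆ ↑(Finset.range (n + 1) ×ˢ Finset.range (n + 1) ×ˢ
      Finset.range (n + 1)) := by
    intro v hv
    obtain ⟨p, hp⟩ := conn.exists_walk_length_eq_dist (0, 0, 0) v
    have h := lip p
    have h' : Gr.dist (0, 0, 0) v ≤ n := hv
    simp only [Finset.coe_product, Set.mem_prod, Finset.coe_range, Set.mem_Iio] at h ⊢
    omega
  refine (Set.encard_le_encard this).trans ?_
  rw [Set.encard_coe_eq_coe_finsetCard]
  simp only [Finset.card_product, Finset.card_range]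
  have h : (n + 1) * ((n + 1) * (n + 1)) ≤ (2 * n) * ((2 * n) * (2 * n)) := by
    gcongr <;> omega
  exact_mod_cast h.trans (le_of_eq (by ring))

lemma iso (S : Finset W) : S.card ≤ (S.filter fun v => ∃ w ∉ S, Gr.Adj v w).card ^ 2 := by
  have h1 : ∀ v ∈ S, ∃ p ∈ (S.filter fun v => ∃ w ∉ S, Gr.Adj v w) ×ˢ
      (S.filter fun v => ∃ w ∉ S, Gr.Adj v w), p.1.1 = v.1 ∧ p.1.2.1 = v.2.1 ∧ p.2.2.2 = v.2.2 := by
    intro v hv
    obtain ⟨a, ha, ha'⟩ := Finset.exists_max_image
      (S.filter fun a => a.1 = v.1 ∧ a.2.1 = v.2.1) (fun a => a.2.2) ⟨v, by simp [hv]⟩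
    obtain ⟨b, hb, hb'⟩ := Finset.exists_max_image
      (S.filter fun a => a.1 = v.1 ∧ a.2.2 = v.2.2) (fun a => a.2.1) ⟨v, by simp [hv]⟩
    rw [Finset.mem_filter] at ha hb
    refine ⟨(a, b), ?_, ha.2.1, ha.2.2, hb.2.2⟩
    simp only [Finset.mem_product, Finset.mem_filter]
    refine ⟨⟨ha.1, _, fun h => ?_, a2 a.1 a.2.1 a.2.2⟩, hb.1, _, fun h => ?_, a1 b.1 b.2.1 b.2.2⟩
    · simpa using ha' _ (Finset.mem_filter.2 ⟨h, ha.2⟩)
    · simpa using hb' _ (Finset.mem_filter.2 ⟨h, hb.2⟩)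
  choose! f hf hf' using h1
  rw [sq, ← Finset.card_product]
  refine Finset.card_le_card_of_injOn f hf fun v hv w hw h => ?_
  obtain ⟨h1, h2, h3⟩ := hf' v hv
  obtain ⟨h4, h5, h6⟩ := hf' w hw
  rw [h] at h1 h2 h3
  exact Prod.ext (h1.symm.trans h4) (Prod.ext (h2.symm.trans h5) (h3.symm.trans h6))

lemma seeds (μ : unitInterval) (h : 0 < μ) :
    ∀ᵐ s ∂(Measure.infinitePi fun _ : W => bernoulliMeasure true false μ),
      ∃ k, s (k + 1, 0, 0) = true := by
  rw [ae_iff]
  have hq : bernoulliMeasure true false μ {false} < 1 := by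
    rw [bernoulliMeasure_apply_of_notMem_of_mem _ (measurableSet_singleton _) (by simp) (by simp)]
    have : unitInterval.toNNReal (unitInterval.symm μ) < 1 := by
      rw [← NNReal.coe_lt_coe]
      have : (0 : ℝ) < μ := h
      simp only [unitInterval.coe_toNNReal, unitInterval.coe_symm_eq, NNReal.coe_one]
      linarith
    exact_mod_cast this
  have hp : IsProbabilityMeasure (bernoulliMeasure true false μ) := inferInstance
  generalize bernoulliMeasure true false μ = ν at *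
  refine le_antisymm (ge_of_tendsto' (ENNReal.tendsto_pow_atTop_nhds_zero_of_lt_one hq)
    fun n => ?_) bot_le
  have := Pool.Agent.H22.Perc3.ind_prod (fun _ : W => ν) ∅
    (fun k : ℕ => ({(k + 1, 0, 0)} : Set W)) Set.univ
    (fun k => {s : W → Bool | s (k + 1, 0, 0) ∈ ({false} : Set Bool)})
    (ν {false}) (Finset.range n)
    (@MeasurableSet.univ _ (cylinderEvents _))
    (fun g _ => Pool.Agent.H22.Perc3.ev_meas _ _ (Set.mem_singleton _) _
      (measurableSet_singleton _))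
    (fun _ _ => Set.empty_disjoint _) (fun g _ g' _ hg => by simpa using hg)
    (fun g _ => (Pool.Agent.H22.Perc3.ev_eq (fun _ : W => ν) _ _ (measurableSet_singleton _)).le)
  simp only [measure_univ, one_mul, Finset.card_range, Set.univ_inter] at this
  refine (measure_mono fun s hs => ?_).trans this
  simp only [Set.mem_iInter]
  intro k _
  simpa using not_exists.1 hs k

lemma exp_small (r : ℝ) (hr : 0 < r) (ε : ℝ) (hε : 0 ≤ ε) :
    expMeasure r (Set.Iio ε) ≤ ENNReal.ofReal (r * ε) := by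
  have := isProbabilityMeasure_expMeasure hr
  refine (measure_mono Set.Iio_subset_Iic_self).trans ?_
  rw [← ofReal_cdf, cdf_expMeasure_eq hr, if_pos hε]
  refine ENNReal.ofReal_le_ofReal ?_
  linarith [Real.add_one_le_exp (-(r * ε))]

lemma small (l : ℝ) (hl : 0 < l) (ε : ℝ) (hε : 0 ≤ ε) :
    (expMeasure 1).prod (expMeasure l) {x | x.1 < ε ∨ x.2 < ε} ≤ ENNReal.ofReal ((1 + l) * ε) := by
  have := isProbabilityMeasure_expMeasure hl
  have := isProbabilityMeasure_expMeasure one_pos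
  have : {x : ℝ × ℝ | x.1 < ε ∨ x.2 < ε} = Set.Iio ε ×ˢ Set.univ ∪ Set.univ ×ˢ Set.Iio ε := by
    ext x; simp
  rw [this, add_mul, ENNReal.ofReal_add (by positivity) (by positivity)]
  refine (measure_union_le _ _).trans ?_
  simp only [Measure.prod_prod, measure_univ, mul_one, one_mul]
  exact add_le_add (by simpa using exp_small 1 one_pos ε hε) (exp_small l hl ε hε)

/-- A connected infinite graph of degree at most `4`, of polynomial growth and isoperimetric
dimension bigger than `1`, on which for all `l > 0`, `0 < μ < 1`, almost surely the process occupies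
every vertex and `FPP_λ` survives. -/
theorem result : ∃ (G : SimpleGraph (ℕ × ℕ × ℕ)) (o : ℕ × ℕ × ℕ), G.Connected ∧
    (∀ v, (G.neighborSet v).encard ≤ 4) ∧
    (∃ C D : ℕ, ∀ n, 1 ≤ n → {v | G.dist o v ≤ n}.encard ≤ ((C * n ^ D : ℕ) : ℕ∞)) ∧
    (∃ d c : ℝ, 1 < d ∧ 0 < c ∧ ∀ S : Finset (ℕ × ℕ × ℕ),
      c * (S.card : ℝ) ^ ((d - 1) / d) ≤ {v | v ∈ S ∧ ∃ w ∉ S, G.Adj v w}.ncard) ∧
    ∀ (l : ℝ) (μ : unitInterval), 0 < l → 0 < μ → μ < 1 →
      IsProbabilityMeasure (law (ℕ × ℕ × ℕ) l μ) ∧ ∀ᵐ ω ∂(law (ℕ × ℕ × ℕ) l μ),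
        (∀ v, ∃ n, v ∈ (run G o ω.1 ω.2 n).A) ∧
        ∃ S : Set (ℕ × ℕ × ℕ), S.Infinite ∧ (G.induce S).Connected ∧
          ∀ v ∈ S, ∀ n, v ∈ (run G o ω.1 ω.2 n).A → (run G o ω.1 ω.2 n).ty v = true := by
  refine ⟨Gr, (0, 0, 0), conn, deg, ⟨8, 3, growth⟩, ⟨2, 1, by norm_num, one_pos, fun S => ?_⟩,
    fun l μ hl h0 _ => ?_⟩
  · have h := iso S
    have e : {v | v ∈ S ∧ ∃ w ∉ S, Gr.Adj v w} = ↑(S.filter fun v => ∃ w ∉ S, Gr.Adj v w) := by
      ext v; simp
    rw [e, Set.ncard_coe_finset, one_mul, show ((2 : ℝ) - 1) / 2 = 1 / 2 by norm_num,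
      ← Real.sqrt_eq_rpow, Real.sqrt_le_left (by positivity)]
    exact_mod_cast h
  have := isProbabilityMeasure_expMeasure hl
  have := isProbabilityMeasure_expMeasure one_pos
  refine ⟨by unfold law; infer_instance, ?_⟩
  have hf : ∀ v, (Gr.neighborSet v).Finite := fun v =>
    Set.finite_of_encard_le_coe (k := 4) (deg v)
  have hm : ∀ ε : ℝ, MeasurableSet {x : ℝ × ℝ | x.1 < ε ∨ x.2 < ε} := fun ε =>
    (measurableSet_lt measurable_fst measurable_const).union
      (measurableSet_lt measurable_snd measurable_const)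
  have hε : (0 : ℝ) < 1 / (8 * (1 + l)) := by positivity
  have h1 := Pool.Agent.H22.Saw.ae_fin Gr nb adj_nb _ (hm (1 / (8 * (1 + l))))
    ((expMeasure 1).prod (expMeasure l)) ((small l hl _ hε.le).trans (le_of_eq (by
      rw [show (1 + l) * (1 / (8 * (1 + l))) = 8⁻¹ by field_simp, ENNReal.ofReal_inv_of_pos (by simp)]
      simp)))
  have h2 : ∀ᵐ t ∂(Measure.infinitePi fun _ : Sym2 W => (expMeasure 1).prod (expMeasure l)),
      ∀ e, 0 ≤ (t e).1 ∧ 0 ≤ (t e).2 := by
    rw [ae_all_iff]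
    intro e
    rw [ae_iff]
    have := (Pool.Agent.H22.Perc3.ev_eq (fun _ : Sym2 W => (expMeasure 1).prod (expMeasure l))
      e _ (hm 0)).le.trans (small l hl 0 le_rfl)
    simp only [mul_zero, ENNReal.ofReal_zero, nonpos_iff_eq_zero] at this
    convert this using 3 with t
    simp only [not_and_or, not_le]
    rfl
  filter_upwards [Measure.quasiMeasurePreserving_fst.ae (seeds μ h0),
    Measure.quasiMeasurePreserving_snd.ae (h1.and h2)] with ω ⟨k, hk⟩ ⟨h3, h4⟩
  refine ⟨all_occ Gr _ ω.1 ω.2 conn hf _ hε h4 h3, {v | v.1 = k + 1}, ?_, ?_, fun v hv n hn =>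
    ty_inv Gr _ ω.1 ω.2 conn hf {v | v.1 = k + 1} (by simp) ?_ n v hn hv⟩
  · exact Set.infinite_of_injective_forall_mem (f := fun n : ℕ => ((k + 1, n, 0) : W))
      (fun a b h => by simpa using h) (fun _ => rfl)
  · have h : ∀ x y, (Gr.induce {v | v.1 = k + 1}).Reachable ⟨(k + 1, 0, 0), rfl⟩
        ⟨(k + 1, x, y), rfl⟩ := by
      intro x y
      induction y with
      | succ y ih => exact ih.trans (SimpleGraph.Adj.reachable (a2 _ x y))
      | zero =>
        induction x with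
        | succ x ih => exact ih.trans (SimpleGraph.Adj.reachable (a1 _ x 0))
        | zero => rfl
    have : Nonempty {v : W | v.1 = k + 1} := ⟨⟨(k + 1, 0, 0), rfl⟩⟩
    refine ⟨?_⟩
    rintro ⟨⟨a, b, c⟩, rfl : a = k + 1⟩ ⟨⟨a', b', c'⟩, rfl : a' = k + 1⟩
    exact (h b c).symm.trans (h b' c')
  · rintro ⟨a, b, c⟩ ⟨a', b', c'⟩ h (rfl : a' = k + 1)
    obtain ⟨d, hd⟩ := adj_nb _ _ h.symm
    by_cases h5 : (b', c') = (0, 0)
    · right
      rw [h5]; exact hk
    · left
      fin_cases d <;> simp [nb, h5] at hd <;> simp_all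

end
end Pool.Agent.Results.MP_12f94a_pr.Counter
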